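import Mathlib

/-!
# T6 (MP_460e77_co): the order 3 ^ 6: definitions of the combinatorial core

`L` is the group of light functionals (elementary abelian of order `729`), `S i`, `i ∈ I`, are the `27` slices (finite sets of points), `y x : L →+ ZMod 3` is the light image of the point `x`.
-/

set_option autoImplicit false

namespace Pool.Agent.H16.T6

open Finset
open scoped Classical

variable {L X ι : Type*} [AddCommGroup L]

/-- number of points of `S` on which `l` is `c` (the size of a fibre of `l`) -/
noncomputable def N (S : Finset X) (y : X → L →+ ZMod 3) (l : L) (c : ZMod 3) : ℕ :=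
  (S.filter fun x => y x l = c).card

/-- sum of the squares of the sizes of the fibres of `l` -/
noncomputable def Q (S : Finset X) (y : X → L →+ ZMod 3) (l : L) : ℕ :=
  N S y l 0 ^ 2 + N S y l 1 ^ 2 + N S y l 2 ^ 2

/-- number of ordered collisions in `S` -/
noncomputable def col (S : Finset X) (y : X → L →+ ZMod 3) : ℕ :=
  ((S ×ˢ S).filter fun z => z.1 ≠ z.2 ∧ y z.1 = y z.2).card

/-- the cell of two functionals -/
noncomputable def cell (S : Finset X) (y : X → L →+ ZMod 3) (a b : L) (α β : ZMod 3) : ℕ :=
  (S.filter fun x => y x a = α ∧ y x b = β).card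

/-- the number of fibres of `l` in `S` with exactly six points -/
noncomputable def six (S : Finset X) (y : X → L →+ ZMod 3) (l : L) : ℕ :=
  ((univ : Finset (ZMod 3)).filter fun c => N S y l c = 6).card

/-- general position: the only affine relations between the points `y x`, `x ∈ F`, are the constant ones -/
def GP (F : Finset X) (y : X → L →+ ZMod 3) : Prop :=
  ∀ c : X → ZMod 3, ∑ x ∈ F, c x = 0 → (∀ m : L, ∑ x ∈ F, c x * y x m = 0) →
    ∀ x ∈ F, ∀ x' ∈ F, c x = c x'

/-- the row of `l` is not zero -/
def Row (μ : L → L → L → L → ZMod 3) (l : L) : Prop := ∃ m m', μ l l m m' ≠ 0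

/-- one slice: kills products of at most three functionals, quartic moments `μ`, no fibre with exactly three points -/
structure Slc (μ : L → L → L → L → ZMod 3) (S : Finset X) (y : X → L →+ ZMod 3) : Prop where
  k3 : ∀ Ls : List (L × ZMod 3), Ls.length ≤ 3 →
    ∑ x ∈ S, (Ls.map fun l => y x l.1 - l.2).prod = 0
  quart : ∀ a b c d : L, ∑ x ∈ S, y x a * y x b * y x c * y x d = μ a b c d
  no3 : ∀ (l : L) (c : ZMod 3), N S y l c ≠ 3

/-- the common part of the data for `kappa = 3` -/
structure Cfg [Fintype L] (I : Finset ι) (S : ι → Finset X) (y : X → L →+ ZMod 3)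
    (μ : L → L → L → L → ZMod 3) : Prop where
  tor : ∀ l : L, 3 • l = 0
  cardL : Fintype.card L = 729
  cardI : I.card = 27
  slc : ∀ i ∈ I, Slc μ (S i) y
  col : ∑ i ∈ I, col (S i) y ≤ 26
  prs : ∀ k : L →+ ZMod 3,
    ∑ i ∈ I, ((S i ×ˢ S i).filter fun z => z.1 ≠ z.2 ∧ y z.1 - y z.2 = k).card ≤ 27

/-- `t = 0`: all slices have `27` points, the cost of every functional is `54` (`7047 = 27 * 243 + 9 * 54`) -/
structure Cfg0 [Fintype L] (I : Finset ι) (S : ι → Finset X) (y : X → L →+ ZMod 3)
    (μ : L → L → L → L → ZMod 3) : Prop extends Cfg I S y μ where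
  card27 : ∀ i ∈ I, (S i).card = 27
  q : ∀ l : L, l ≠ 0 → ∑ i ∈ I, Q (S i) y l = 7047

/-- `t = 1, 2`: `729` points in all, at least `18` slices with `24` points, the cost of every functional is at most `78` (`7263 = 27 * 243 + 9 * 78`) -/
structure Cfg1 [Fintype L] (I : Finset ι) (S : ι → Finset X) (y : X → L →+ ZMod 3)
    (μ : L → L → L → L → ZMod 3) : Prop extends Cfg I S y μ where
  sum : ∑ i ∈ I, (S i).card = 729
  card24 : 18 ≤ (I.filter fun i => (S i).card = 24).card
  q : ∀ l : L, l ≠ 0 → ∑ i ∈ I, Q (S i) y l ≤ 7263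

end Pool.Agent.H16.T6
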