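import Pool.Agent.H16.T6.Loc
import Pool.Agent.H74.D0.CoreA
import Pool.Agent.H74.D0.Small

/-!
# T6 Delta0: all rows zero (notes 5365 of helper74 and 5333 (iv))

All rows are zero, so `μ = 0` (`mu_zero`): the slices kill products of at most four functionals.  For a triple `τ = (l1, l2, l3)` the function `N_τ (a) = #{x ∈ S : (l1, l2, l3)(x) = a}` on `(ZMod 3)^3` is AFFINE modulo `3` (the sums against
polynomials of degree at most `4` vanish and `6 - 5 = 1`).
`slice27`: `|S| = 27` and `col S ≤ 26` imply `18 ∣ col S`: some triple isolates a point `x0` of multiplicity 1, so `N_τ` is affine, `1` at the point: it is `1` everywhere, or `0, 1, 2` on three parallel planes;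
in the first case there are no collisions; in the second case the nine double cells coincide all or none: `0` or `18` collisions (H74/D0/CoreB, CoreA).
`small`: `|S| < 27` and `col S ≤ 26` imply `S = ∅`: all classes are multiples of `3` (isolating triple, the affine function vanishes), so `2 |S| ≤ col S`, `|S| ≤ 12`, at most four classes of three points; some functional isolates one of them: a fibre with three points, excluded by `no3` (H74/D0/Small).
-/

set_option autoImplicit false

namespace Pool.Agent.H16.T6

open Finset
open scoped Classical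

variable {L X ι : Type*} [AddCommGroup L] {I : Finset ι} {S : ι → Finset X}
  {y : X → L →+ ZMod 3} {μ : L → L → L → L → ZMod 3}

/-- without rows products of four functionals are killed, too -/
theorem kills4 {T : Finset X} (h : Slc μ T y) (h0 : ∀ l : L, ¬ Row μ l) :
    ∀ Ls : List (L × ZMod 3), Ls.length < 5 →
      ∑ x ∈ T, (Ls.map fun l => y x l.1 - l.2).prod = 0 := by
  intro Ls hL
  by_cases h3 : Ls.length ≤ 3
  · exact h.k3 Ls h3
  · match Ls, hL, h3 with
    | [], _, h3 => exact absurd (by simp) h3
    | [_], _, h3 => exact absurd (by simp) h3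
    | [_, _], _, h3 => exact absurd (by simp) h3
    | [_, _, _], _, h3 => exact absurd (by simp) h3
    | [(a, α), (b, β), (c, γ), (d, δ)], _, _ =>
      have e0 := h.quart a b c d
      rw [mu_zero h h0] at e0
      have e1 := h.k3 [(a, 0), (b, 0), (c, 0)] (by simp)
      have e2 := h.k3 [(a, 0), (b, 0), (d, δ)] (by simp)
      have e3 := h.k3 [(a, 0), (c, γ), (d, δ)] (by simp)
      have e4 := h.k3 [(b, β), (c, γ), (d, δ)] (by simp)
      simp only [List.map_cons, List.map_nil, List.prod_cons, List.prod_nil, mul_one, sub_zero]
        at e1 e2 e3 e4 ⊢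
      have key : ∑ x ∈ T, (y x a - α) * ((y x b - β) * ((y x c - γ) * (y x d - δ))) =
          ∑ x ∈ T, y x a * y x b * y x c * y x d - δ * ∑ x ∈ T, y x a * (y x b * y x c)
          - γ * ∑ x ∈ T, y x a * (y x b * (y x d - δ))
          - β * ∑ x ∈ T, y x a * ((y x c - γ) * (y x d - δ))
          - α * ∑ x ∈ T, (y x b - β) * ((y x c - γ) * (y x d - δ)) := by
        rw [mul_sum, mul_sum, mul_sum, mul_sum, ← sum_sub_distrib, ← sum_sub_distrib,
          ← sum_sub_distrib, ← sum_sub_distrib]
        refine sum_congr rfl fun x _ => ?_
        ring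
      rw [key, e0, e1, e2, e3, e4]
      ring
    | _ :: _ :: _ :: _ :: _ :: _, hL, _ => simp only [List.length_cons] at hL; omega

/-- a slice with `27` points and zero quartic form: `0` or `18` ordered collisions (or more than `26`) -/
theorem slice27 [Finite L] {T : Finset X} (h : Slc μ T y) (_tor : ∀ l : L, 3 • l = 0)
    (h0 : ∀ l : L, ¬ Row μ l) (hT : T.card = 27) (hc : col T y ≤ 26) : 18 ∣ col T y := by
  rcases Pool.Agent.H74.D0.core T y hT (kills4 h h0) hc with h1 | h1
  · rw [h1]
    exact dvd_zero _
  · rw [h1]

/-- a slice with fewer than `27` points and zero quartic form is empty or has more than `26`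
collisions -/
theorem small [Finite L] {T : Finset X} (h : Slc μ T y) (_tor : ∀ l : L, 3 • l = 0)
    (h0 : ∀ l : L, ¬ Row μ l) (hT : T.card < 27) (hc : col T y ≤ 26) : T.card = 0 :=
  Pool.Agent.H74.D0.small_core T y hT (kills4 h h0) h.no3 hc

/-- a slice with `24` points and zero quartic form has many collisions -/
theorem slice24 [Finite L] {T : Finset X} (h : Slc μ T y) (tor : ∀ l : L, 3 • l = 0)
    (h0 : ∀ l : L, ¬ Row μ l) (hT : T.card = 24) : 26 < col T y := by
  by_contra hcon
  push Not at hcon
  have := small h tor h0 (by omega) hcon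
  omega

end Pool.Agent.H16.T6
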