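import Pool.Agent.H16.T6.Loc

/-!
# T6 SixZ: a six-point fibre of a functional with zero row

Let `F` be the fibre, `|F| = 6`, `l` with `¬ Row μ l`.  By `fib_one`, `fib_two` all functionals `m` have `∑_F y x m = 0`, `∑_F (y x m)(y x m') = 0`.  For one `m`: the numbers `n0, n1, n2` of points with value
`0, 1, 2` satisfy `n0 + n1 + n2 = 6`, `n1 + 2 n2 = 0`, `n1 + n2 = 0` mod `3`, so all are `0` mod `3`: `m` is constant on `F` or takes two values three times each.  If `m` and `m'` are both not constant, `F = A ∪ B`
(values `a`, `b` of `m`, three points each) and `∑_F (y x m)(y x m') = a ∑_A y x m' + b ∑_B y x m' = (a - b) ∑_A y x m' = 0`; so `∑_A y x m' = 0`, `m'` is constant on `A` or takes three values on `A`, but it takes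
only two values in all: constant on `A`, and then on `B` (three times each value).  So there is a partition of `F` into two triples (or `F` itself) on which all functionals are constant: at least `3 * 2 + 3 * 2 = 12` ordered collisions.
-/

set_option autoImplicit false

namespace Pool.Agent.H16.T6

open Finset
open scoped Classical

variable {L X ι : Type*} [AddCommGroup L] {S : Finset X} {y : X → L →+ ZMod 3}
  {μ : L → L → L → L → ZMod 3}

private theorem SixZ_ind (t c : ZMod 3) :
    (if t = c then (1 : ZMod 3) else 0) = 1 - (t - c) * (t - c) := by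
  revert t c
  decide

/-- level sets of a functional with vanishing moments -/
private theorem SixZ_lev {F : Finset X} {g : X → ZMod 3} (h0 : (F.card : ZMod 3) = 0)
    (h1 : ∑ x ∈ F, g x = 0) (h2 : ∑ x ∈ F, g x * g x = 0) (c : ZMod 3) :
    3 ∣ (F.filter fun x => g x = c).card := by
  rw [← ZMod.natCast_eq_zero_iff]
  have e : ((F.filter fun x => g x = c).card : ZMod 3) =
      ∑ x ∈ F, (if g x = c then (1 : ZMod 3) else 0) := by
    rw [← Finset.sum_filter, Finset.sum_const, nsmul_eq_mul, mul_one]
  rw [e]
  have e2 : ∑ x ∈ F, (if g x = c then (1 : ZMod 3) else 0) =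
      ∑ x ∈ F, (1 : ZMod 3) - (∑ x ∈ F, g x * g x - 2 * c * ∑ x ∈ F, g x +
        c * c * ∑ x ∈ F, (1 : ZMod 3)) := by
    rw [Finset.mul_sum, Finset.mul_sum, ← Finset.sum_sub_distrib, ← Finset.sum_add_distrib,
      ← Finset.sum_sub_distrib]
    refine Finset.sum_congr rfl fun x _ => ?_
    rw [SixZ_ind]
    ring
  rw [e2, h1, h2, Finset.sum_const, nsmul_eq_mul, mul_one, h0]
  ring

private theorem SixZ_three (a b c : ZMod 3) (h : a + b + c = 0) :
    (a = b ∧ a = c) ∨ ∀ d : ZMod 3, d = a ∨ d = b ∨ d = c := by
  revert a b c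
  decide

/-- the class of a point has at least three elements -/
private theorem SixZ_class {F : Finset X} (h6 : F.card = 6)
    (h1 : ∀ m : L, ∑ x ∈ F, y x m = 0) (h2 : ∀ m m' : L, ∑ x ∈ F, y x m * y x m' = 0)
    {x : X} (hx : x ∈ F) : 3 ≤ (F.filter fun x' => y x = y x').card := by
  have h0 : (F.card : ZMod 3) = 0 := by
    rw [h6]
    decide
  by_cases hall : ∀ x' ∈ F, y x = y x'
  · rw [Finset.filter_true_of_mem hall, h6]
    omega
  · push Not at hall
    obtain ⟨x', hx', hne⟩ := hall
    have hm : ∃ m : L, y x m ≠ y x' m := by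
      by_contra hcon
      push Not at hcon
      exact hne (DFunLike.ext _ _ hcon)
    obtain ⟨m, hm⟩ := hm
    have dA := SixZ_lev (g := fun z => y z m) h0 (h1 m) (h2 m m) (y x m)
    have dB := SixZ_lev (g := fun z => y z m) h0 (h1 m) (h2 m m) (y x' m)
    have pA : 0 < (F.filter fun z => y z m = y x m).card :=
      Finset.card_pos.2 ⟨x, Finset.mem_filter.2 ⟨hx, rfl⟩⟩
    have pB : 0 < (F.filter fun z => y z m = y x' m).card :=
      Finset.card_pos.2 ⟨x', Finset.mem_filter.2 ⟨hx', rfl⟩⟩
    have hdis : Disjoint (F.filter fun z => y z m = y x m) (F.filter fun z => y z m = y x' m) := by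
      rw [Finset.disjoint_left]
      intro z hz hz'
      rw [Finset.mem_filter] at hz hz'
      exact hm (hz.2.symm.trans hz'.2)
    have hsub : (F.filter fun z => y z m = y x m) ∪ (F.filter fun z => y z m = y x' m) ⊆ F :=
      Finset.union_subset (Finset.filter_subset _ _) (Finset.filter_subset _ _)
    have hcard := Finset.card_union_of_disjoint hdis
    have hle := Finset.card_le_card hsub
    have cA : (F.filter fun z => y z m = y x m).card = 3 := by omega
    have hun : (F.filter fun z => y z m = y x m) ∪ (F.filter fun z => y z m = y x' m) = F :=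
      Finset.eq_of_subset_of_card_le hsub (by omega)
    have hval : ∀ z ∈ F, y z m = y x m ∨ y z m = y x' m := by
      intro z hz
      rw [← hun, Finset.mem_union, Finset.mem_filter, Finset.mem_filter] at hz
      rcases hz with hz | hz
      · exact Or.inl hz.2
      · exact Or.inr hz.2
    have hsA : ∀ m' : L, ∑ z ∈ F.filter (fun z => y z m = y x m), y z m' = 0 := by
      intro m'
      have e1 : ∑ z ∈ F, (y z m - y x' m) * y z m' =
          (y x m - y x' m) * ∑ z ∈ F.filter (fun z => y z m = y x m), y z m' := by
        rw [Finset.mul_sum, Finset.sum_filter]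
        refine Finset.sum_congr rfl fun z hz => ?_
        rcases hval z hz with h | h
        · rw [if_pos h, h]
        · have hn : ¬ y z m = y x m := fun h' => hm (h'.symm.trans h)
          rw [if_neg hn, h, sub_self, zero_mul]
      have e2 : ∑ z ∈ F, (y z m - y x' m) * y z m' = 0 := by
        have e3 : ∑ z ∈ F, (y z m - y x' m) * y z m' =
            ∑ z ∈ F, y z m * y z m' - y x' m * ∑ z ∈ F, y z m' := by
          rw [Finset.mul_sum, ← Finset.sum_sub_distrib]
          refine Finset.sum_congr rfl fun z _ => ?_
          ring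
        rw [e3, h1, h2]
        ring
      rw [e2] at e1
      have hd : y x m - y x' m ≠ 0 := sub_ne_zero.2 hm
      have key : ∀ a b : ZMod 3, a ≠ 0 → 0 = a * b → b = 0 := by decide
      exact key _ _ hd e1
    obtain ⟨p, q, r, hpq, hpr, hqr, hA⟩ := Finset.card_eq_three.1 cA
    have hconst : ∀ m' : L, ∀ z ∈ F.filter (fun z => y z m = y x m), y x m' = y z m' := by
      intro m'
      have hs := hsA m'
      rw [hA, Finset.sum_insert (by
          rw [Finset.mem_insert, Finset.mem_singleton]
          exact fun h => h.elim hpq hpr),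
        Finset.sum_insert (by
          rw [Finset.mem_singleton]
          exact hqr), Finset.sum_singleton, ← add_assoc] at hs
      have hxA : x ∈ F.filter (fun z => y z m = y x m) := Finset.mem_filter.2 ⟨hx, rfl⟩
      rcases SixZ_three _ _ _ hs with ⟨h3, h4⟩ | h3
      · intro z hz
        rw [hA, Finset.mem_insert, Finset.mem_insert, Finset.mem_singleton] at hz hxA
        have hz2 : y z m' = y p m' := by
          rcases hz with rfl | rfl | rfl
          · rfl
          · exact h3.symm
          · exact h4.symm
        have hx2 : y x m' = y p m' := by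
          rcases hxA with rfl | rfl | rfl
          · rfl
          · exact h3.symm
          · exact h4.symm
        rw [hz2, hx2]
      · exfalso
        have hpF : p ∈ F := by
          have : p ∈ F.filter (fun z => y z m = y x m) := by
            rw [hA]
            exact Finset.mem_insert_self _ _
          exact (Finset.mem_filter.1 this).1
        have hqF : q ∈ F := by
          have : q ∈ F.filter (fun z => y z m = y x m) := by
            rw [hA]
            exact Finset.mem_insert_of_mem (Finset.mem_insert_self _ _)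
          exact (Finset.mem_filter.1 this).1
        have hrF : r ∈ F := by
          have : r ∈ F.filter (fun z => y z m = y x m) := by
            rw [hA]
            exact Finset.mem_insert_of_mem (Finset.mem_insert_of_mem (Finset.mem_singleton_self _))
          exact (Finset.mem_filter.1 this).1
        have hlev : ∀ d : ZMod 3, 3 ≤ (F.filter fun z => y z m' = d).card := by
          intro d
          have hd := SixZ_lev (g := fun z => y z m') h0 (h1 m') (h2 m' m') d
          have hp : 0 < (F.filter fun z => y z m' = d).card := by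
            rw [Finset.card_pos]
            rcases h3 d with h | h | h
            · exact ⟨p, Finset.mem_filter.2 ⟨hpF, h.symm⟩⟩
            · exact ⟨q, Finset.mem_filter.2 ⟨hqF, h.symm⟩⟩
            · exact ⟨r, Finset.mem_filter.2 ⟨hrF, h.symm⟩⟩
          omega
        have hN := N_sum F y m'
        unfold N at hN
        have a0 := hlev 0
        have a1 := hlev 1
        have a2 := hlev 2
        omega
    have hsub2 : (F.filter fun z => y z m = y x m) ⊆ F.filter fun x' => y x = y x' := by
      intro z hz
      refine Finset.mem_filter.2 ⟨(Finset.mem_filter.1 hz).1, ?_⟩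
      exact DFunLike.ext _ _ fun m' => hconst m' z hz
    have := Finset.card_le_card hsub2
    omega

/-- the collisions in the fibre -/
theorem six_zero_fib (h : Slc μ S y) {l : L} {c : ZMod 3} (h6 : N S y l c = 6)
    (hl : ¬ Row μ l) :
    12 ≤ (((S.filter fun x => y x l = c) ×ˢ (S.filter fun x => y x l = c)).filter
      fun z => z.1 ≠ z.2 ∧ y z.1 = y z.2).card := by
  have hμ : ∀ m m' : L, μ l l m m' = 0 := by
    intro m m'
    by_contra hne
    exact hl ⟨m, m', hne⟩
  obtain ⟨F, hF⟩ : ∃ F, F = S.filter fun x => y x l = c := ⟨_, rfl⟩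
  have hF6 : F.card = 6 := by
    rw [hF]
    exact h6
  have h1 : ∀ m : L, ∑ x ∈ F, y x m = 0 := by
    intro m
    rw [hF]
    exact fib_one h l m c
  have h2 : ∀ m m' : L, ∑ x ∈ F, y x m * y x m' = 0 := by
    intro m m'
    rw [hF, fib_two h l m m' c, hμ, neg_zero]
  rw [← hF]
  have e2 : ((F ×ˢ F).filter fun z => z.1 ≠ z.2 ∧ y z.1 = y z.2).card =
      ∑ x ∈ F, ((F.filter fun x' => y x = y x').erase x).card := by
    rw [Finset.card_filter, Finset.sum_product]
    refine Finset.sum_congr rfl fun x _ => ?_
    rw [← Finset.card_filter]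
    congr 1
    ext x'
    rw [Finset.mem_filter, Finset.mem_erase, Finset.mem_filter]
    constructor
    · rintro ⟨a1, a2, a3⟩
      exact ⟨fun h => a2 h.symm, a1, a3⟩
    · rintro ⟨a1, a2, a3⟩
      exact ⟨a2, fun h => a1 h.symm, a3⟩
  have e3 : ∀ x ∈ F, 2 ≤ ((F.filter fun x' => y x = y x').erase x).card := by
    intro x hx
    have hxm : x ∈ F.filter fun x' => y x = y x' := Finset.mem_filter.2 ⟨hx, rfl⟩
    rw [Finset.card_erase_of_mem hxm]
    have := SixZ_class (y := y) hF6 h1 h2 hx
    omega
  have e4 := Finset.sum_le_sum e3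
  rw [Finset.sum_const, hF6, smul_eq_mul] at e4
  omega

theorem six_zero (h : Slc μ S y) {l : L} {c : ZMod 3} (h6 : N S y l c = 6) (hl : ¬ Row μ l) :
    12 ≤ col S y := by
  have hμ : ∀ m m' : L, μ l l m m' = 0 := by
    intro m m'
    by_contra hne
    exact hl ⟨m, m', hne⟩
  obtain ⟨F, hF⟩ : ∃ F, F = S.filter fun x => y x l = c := ⟨_, rfl⟩
  have hF6 : F.card = 6 := by
    rw [hF]
    exact h6
  have h1 : ∀ m : L, ∑ x ∈ F, y x m = 0 := by
    intro m
    rw [hF]
    exact fib_one h l m c
  have h2 : ∀ m m' : L, ∑ x ∈ F, y x m * y x m' = 0 := by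
    intro m m'
    rw [hF, fib_two h l m m' c, hμ, neg_zero]
  have hFS : F ⊆ S := by
    rw [hF]
    exact Finset.filter_subset _ _
  have e1 : ((F ×ˢ F).filter fun z => z.1 ≠ z.2 ∧ y z.1 = y z.2).card ≤ col S y := by
    unfold col
    exact Finset.card_le_card (Finset.filter_subset_filter _ (Finset.product_subset_product hFS hFS))
  have e2 : ((F ×ˢ F).filter fun z => z.1 ≠ z.2 ∧ y z.1 = y z.2).card =
      ∑ x ∈ F, ((F.filter fun x' => y x = y x').erase x).card := by
    rw [Finset.card_filter, Finset.sum_product]
    refine Finset.sum_congr rfl fun x _ => ?_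
    rw [← Finset.card_filter]
    congr 1
    ext x'
    rw [Finset.mem_filter, Finset.mem_erase, Finset.mem_filter]
    constructor
    · rintro ⟨a1, a2, a3⟩
      exact ⟨fun h => a2 h.symm, a1, a3⟩
    · rintro ⟨a1, a2, a3⟩
      exact ⟨a2, fun h => a1 h.symm, a3⟩
  have e3 : ∀ x ∈ F, 2 ≤ ((F.filter fun x' => y x = y x').erase x).card := by
    intro x hx
    have hxm : x ∈ F.filter fun x' => y x = y x' := Finset.mem_filter.2 ⟨hx, rfl⟩
    rw [Finset.card_erase_of_mem hxm]
    have := SixZ_class (y := y) hF6 h1 h2 hx
    omega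
  have e4 := Finset.sum_le_sum e3
  rw [Finset.sum_const, hF6, smul_eq_mul] at e4
  omega

end Pool.Agent.H16.T6
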