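import Pool.Agent.H16.T6.Defs

/-!
# T6 Loc: fibres and cells of one slice

`N_sum`: the three fibres partition `S`.  `N_dvd`: model `cn_dvd` in Pool/Agent/H38/T35/Two.lean (the indicator of `y x l = c` is `1 - (y x l - c) ^ 2`; kills with `[(l, c+1), (l, c+2)]`).
`fib_one`, `fib_two`: multiply the indicator `1 - (y x l - c) ^ 2` by `y x m` (three factors, killed) resp. by `y x m * y x m'`: `∑_S (1 - (y x l) ^ 2 + 2 c (y x l) - c ^ 2) (y x m) (y x m') = - μ l l m m'`
because the sums of products of at most three functionals vanish (`k3` with all second components `0`).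
`fib_pos`: a non zero row has no empty fibre (`fib_two` with `m, m'` from `Row`), `3 ∣ N`, `N ≠ 3`.
`cell_dvd`: the indicator of the cell is `(1 - (y x l - α) ^ 2) (1 - (y x m - β) ^ 2)`; expand, only `(y x l) ^ 2 (y x m) ^ 2` survives.
`mu_*`: from `quart` (sums over a slice); `mu_cube` from `z ^ 3 = z` in `ZMod 3` and `k3`.
-/

set_option autoImplicit false

namespace Pool.Agent.H16.T6

open Finset
open scoped Classical

variable {L X ι : Type*} [AddCommGroup L] {S : Finset X} {y : X → L →+ ZMod 3}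
  {μ : L → L → L → L → ZMod 3}

private theorem Loc_ind (t c : ZMod 3) :
    (if t = c then (1 : ZMod 3) else 0) = 1 - (t - c) * (t - c) := by
  revert t c
  decide

/-- sum over a fibre -/
private theorem Loc_fib (f : X → ZMod 3) (l : L) (c : ZMod 3) :
    ∑ x ∈ S.filter (fun x => y x l = c), f x =
      ∑ x ∈ S, f x - ∑ x ∈ S, f x * ((y x l - c) * (y x l - c)) := by
  rw [Finset.sum_filter, ← Finset.sum_sub_distrib]
  refine Finset.sum_congr rfl fun x _ => ?_
  have h := Loc_ind (y x l) c
  by_cases hx : y x l = c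
  · rw [if_pos hx] at h ⊢
    have h2 : (y x l - c) * (y x l - c) = 0 := by
      rw [hx, sub_self, mul_zero]
    rw [h2]
    ring
  · rw [if_neg hx] at h ⊢
    have h2 : (y x l - c) * (y x l - c) = 1 := (sub_eq_zero.1 h.symm).symm
    rw [h2]
    ring

private theorem Loc_k0 (h : Slc μ S y) : ∑ _x ∈ S, (1 : ZMod 3) = 0 := by
  simpa using h.k3 [] (by simp)

private theorem Loc_k1 (h : Slc μ S y) (a : L) (α : ZMod 3) : ∑ x ∈ S, (y x a - α) = 0 := by
  simpa using h.k3 [(a, α)] (by simp)

private theorem Loc_k2 (h : Slc μ S y) (a b : L) (α β : ZMod 3) :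
    ∑ x ∈ S, (y x a - α) * (y x b - β) = 0 := by
  simpa using h.k3 [(a, α), (b, β)] (by simp)

private theorem Loc_k3 (h : Slc μ S y) (a b c : L) (α β γ : ZMod 3) :
    ∑ x ∈ S, (y x a - α) * ((y x b - β) * (y x c - γ)) = 0 := by
  simpa using h.k3 [(a, α), (b, β), (c, γ)] (by simp)

private theorem Loc_f0 (h : Slc μ S y) (l : L) (c : ZMod 3) :
    ∑ _x ∈ S.filter (fun x => y x l = c), (1 : ZMod 3) = 0 := by
  rw [Loc_fib (fun _ => 1) l c, Loc_k0 h]
  simp only [one_mul]
  rw [Loc_k2 h, sub_zero]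

theorem N_sum (S : Finset X) (y : X → L →+ ZMod 3) (l : L) :
    N S y l 0 + N S y l 1 + N S y l 2 = S.card := by
  unfold N
  have h := Finset.card_eq_sum_card_fiberwise (s := S) (t := (Finset.univ : Finset (ZMod 3)))
    (f := fun x => y x l) (fun x _ => by simp)
  rw [h]
  have e : (Finset.univ : Finset (ZMod 3)) = {0, 1, 2} := by decide
  rw [e, Finset.sum_insert (by decide), Finset.sum_insert (by decide), Finset.sum_singleton]
  ring

theorem N_dvd (h : Slc μ S y) (l : L) (c : ZMod 3) : 3 ∣ N S y l c := by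
  have h1 := Loc_f0 h l c
  rw [Finset.sum_const, nsmul_eq_mul, mul_one] at h1
  exact (ZMod.natCast_eq_zero_iff _ _).1 h1

/-- `Slc` kills products of at most three functionals, linear versions -/
theorem sum_one (h : Slc μ S y) : (S.card : ZMod 3) = 0 := by
  have h1 := Loc_k0 h
  rwa [Finset.sum_const, nsmul_eq_mul, mul_one] at h1

theorem sum_y (h : Slc μ S y) (a : L) : ∑ x ∈ S, y x a = 0 := by
  have h1 := Loc_k1 h a 0
  simpa only [sub_zero] using h1

theorem sum_yy (h : Slc μ S y) (a b : L) : ∑ x ∈ S, y x a * y x b = 0 := by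
  have h1 := Loc_k2 h a b 0 0
  simpa only [sub_zero] using h1

theorem sum_yyy (h : Slc μ S y) (a b c : L) : ∑ x ∈ S, y x a * y x b * y x c = 0 := by
  have h1 := Loc_k3 h a b c 0 0 0
  simp only [sub_zero] at h1
  rw [← h1]
  refine Finset.sum_congr rfl fun x _ => ?_
  ring

theorem fib_one (h : Slc μ S y) (l m : L) (c : ZMod 3) :
    ∑ x ∈ S.filter (fun x => y x l = c), y x m = 0 := by
  rw [Loc_fib (fun x => y x m) l c]
  have h1 := sum_y h m
  have h2 := Loc_k3 h m l l 0 c c
  simp only [sub_zero] at h2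
  rw [h1, h2, sub_zero]

theorem fib_two (h : Slc μ S y) (l m m' : L) (c : ZMod 3) :
    ∑ x ∈ S.filter (fun x => y x l = c), y x m * y x m' = - μ l l m m' := by
  rw [Loc_fib (fun x => y x m * y x m') l c]
  have h1 := sum_yy h m m'
  have h2 := sum_yyy h m m' l
  have h3 := h.quart l l m m'
  have h4 : ∑ x ∈ S, y x m * y x m' * ((y x l - c) * (y x l - c)) =
      ∑ x ∈ S, y x l * y x l * y x m * y x m' - 2 * c * ∑ x ∈ S, y x m * y x m' * y x l +
        c * c * ∑ x ∈ S, y x m * y x m' := by
    rw [Finset.mul_sum, Finset.mul_sum, ← Finset.sum_sub_distrib, ← Finset.sum_add_distrib]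
    refine Finset.sum_congr rfl fun x _ => ?_
    ring
  rw [h4, h1, h2, h3]
  ring

theorem fib_pos (h : Slc μ S y) {l : L} (hl : Row μ l) (c : ZMod 3) : 6 ≤ N S y l c := by
  have h1 : N S y l c ≠ 0 := by
    obtain ⟨m, m', hm⟩ := hl
    intro h0
    have h1 : S.filter (fun x => y x l = c) = ∅ := Finset.card_eq_zero.1 h0
    have h2 := fib_two h l m m' c
    rw [h1, Finset.sum_empty] at h2
    exact hm (neg_eq_zero.1 h2.symm)
  have h2 := N_dvd h l c
  have h3 := h.no3 l c
  omega

theorem cell_mod (h : Slc μ S y) (l m : L) (α β : ZMod 3) :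
    (cell S y l m α β : ZMod 3) = μ l l m m := by
  have e : (cell S y l m α β : ZMod 3) =
      ∑ x ∈ (S.filter fun x => y x l = α), (if y x m = β then (1 : ZMod 3) else 0) := by
    unfold cell
    rw [← Finset.sum_filter, Finset.filter_filter, Finset.sum_const, nsmul_eq_mul, mul_one]
  rw [e]
  have e2 : ∑ x ∈ (S.filter fun x => y x l = α), (if y x m = β then (1 : ZMod 3) else 0) =
      ∑ x ∈ (S.filter fun x => y x l = α), (1 : ZMod 3) -
      (∑ x ∈ (S.filter fun x => y x l = α), y x m * y x m -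
        2 * β * ∑ x ∈ (S.filter fun x => y x l = α), y x m +
        β * β * ∑ x ∈ (S.filter fun x => y x l = α), (1 : ZMod 3)) := by
    rw [Finset.mul_sum, Finset.mul_sum, ← Finset.sum_sub_distrib, ← Finset.sum_add_distrib,
      ← Finset.sum_sub_distrib]
    refine Finset.sum_congr rfl fun x _ => ?_
    rw [Loc_ind]
    ring
  rw [e2, Loc_f0 h, fib_one h, fib_two h]
  ring

theorem cell_dvd (h : Slc μ S y) {l m : L} (h0 : μ l l m m = 0) (α β : ZMod 3) :
    3 ∣ cell S y l m α β := by
  have h1 := cell_mod h l m α β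
  rw [h0] at h1
  exact (ZMod.natCast_eq_zero_iff _ _).1 h1

theorem mu_swap12 (h : Slc μ S y) (a b c d : L) : μ a b c d = μ b a c d := by
  rw [← h.quart, ← h.quart]
  exact Finset.sum_congr rfl fun x _ => by ring

theorem mu_swap23 (h : Slc μ S y) (a b c d : L) : μ a b c d = μ a c b d := by
  rw [← h.quart, ← h.quart]
  exact Finset.sum_congr rfl fun x _ => by ring

theorem mu_swap34 (h : Slc μ S y) (a b c d : L) : μ a b c d = μ a b d c := by
  rw [← h.quart, ← h.quart]
  exact Finset.sum_congr rfl fun x _ => by ring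

theorem mu_add (h : Slc μ S y) (a a' b c d : L) : μ (a + a') b c d = μ a b c d + μ a' b c d := by
  rw [← h.quart, ← h.quart, ← h.quart, ← Finset.sum_add_distrib]
  refine Finset.sum_congr rfl fun x _ => ?_
  rw [map_add]
  ring

theorem mu_neg (h : Slc μ S y) (a b c d : L) : μ (-a) b c d = - μ a b c d := by
  rw [← h.quart, ← h.quart, ← Finset.sum_neg_distrib]
  refine Finset.sum_congr rfl fun x _ => ?_
  rw [map_neg]
  ring

theorem mu_cube (h : Slc μ S y) (a d : L) : μ a a a d = 0 := by
  rw [← h.quart, ← sum_yy h a d]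
  refine Finset.sum_congr rfl fun x _ => ?_
  have e : ∀ z : ZMod 3, z * z * z = z := by decide
  rw [e]

/-- a zero row for all functionals: everything vanishes (polarisation, `2` is invertible) -/
theorem mu_zero (h : Slc μ S y) (h0 : ∀ l : L, ¬ Row μ l) (a b c d : L) : μ a b c d = 0 := by
  have h1 : ∀ l m m' : L, μ l l m m' = 0 := by
    intro l m m'
    by_contra hne
    exact h0 l ⟨m, m', hne⟩
  have h2 := h1 (a + b) c d
  rw [mu_add h, mu_swap12 h a, mu_swap12 h b, mu_add h, mu_add h, h1, h1, mu_swap12 h b a] at h2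
  have e : ∀ z : ZMod 3, 0 + z + (z + 0) = 0 → z = 0 := by decide
  exact e _ h2

end Pool.Agent.H16.T6
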