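import Pool.Agent.H16.T6.Mk6
import Pool.Agent.H16.T6.SixZ
import Pool.Agent.H88.T6.Fin
import Pool.Agent.H59.T6.StarS
import Pool.Agent.H19.T6.Many

/-!
# T6 module Inst: the facts `H40.S36.Hyp` for a planar function (order `3 ^ 6`, `kappa = 3`)
-/

set_option autoImplicit false

namespace Pool.Agent.H16.T6

open Finset Pool.Agent.H88.Pl Pool.Agent.H16.RB Pool.Agent.H16.RB2 Pool.Agent.H38.RX
  Pool.Agent.H38.T35 Pool.Agent.H59.T6
open scoped Classical

variable {H K : Type*} [AddCommGroup H] [AddCommGroup K] [Fintype H] [Fintype K] {f : H → K}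
  {μ : (H × K →+ ZMod 3) → (H × K →+ ZMod 3) → (H × K →+ ZMod 3) → (H × K →+ ZMod 3) → ZMod 3}

theorem Sit6.slc0 (E : Sit6 f μ) : Slc μ (sl 3 f 0) (yy f) := E.slc 0 zero_mem_PP

omit [Fintype K] in
/-- functionals of `D1` are constant on every slice -/
theorem D1_const {m : H × K →+ ZMod 3} (hm : m ∈ D1 H K) (f : H → K) (v : H × K) :
    ∃ d, ∀ x ∈ sl 3 f v, yy f x m = d := by
  by_cases hne : (sl 3 f v).Nonempty
  · obtain ⟨x0, hx0⟩ := hne
    refine ⟨yy f x0 m, fun x hx => ?_⟩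
    rw [sl, mem_filter] at hx hx0
    have h1 : 3 • (gr f x - gr f x0) = 0 := by
      rw [smul_sub]
      exact sub_eq_zero.2 (hx.2.trans hx0.2.symm)
    have h2 := hm _ h1
    rw [map_sub, sub_eq_zero] at h2
    exact h2
  · rw [not_nonempty_iff_eq_empty] at hne
    exact ⟨0, fun x hx => by rw [hne] at hx; exact absurd hx (notMem_empty x)⟩

theorem Sit6.row_D1 (E : Sit6 f μ) {l : H × K →+ ZMod 3} (hl : Row μ l) : l ∉ D1 H K := by
  intro hD
  obtain ⟨m, m', hm⟩ := hl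
  apply hm
  obtain ⟨d, hd⟩ := D1_const hD f 0
  rw [← E.slc0.quart, sum_congr rfl (g := fun x => d * d * (yy f x m * yy f x m')) fun x hx => by
    rw [hd x hx]; ring, ← mul_sum, sum_yy E.slc0, mul_zero]

/-- a zero row has at most two six-point fibres -/
theorem Sit6.six0 (E : Sit6 f μ) {l : H × K →+ ZMod 3} (hl : ¬ Row μ l) :
    ((univ : Finset (PP 3 H K × ZMod 3)).filter
      (fun q => N (sl 3 f q.1) (yy f) l q.2 = 6)).card ≤ 2 := by
  set Q := (univ : Finset (PP 3 H K × ZMod 3)).filter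
    (fun q => N (sl 3 f q.1) (yy f) l q.2 = 6) with hQ
  have h1 : ∀ v : PP 3 H K, ∑ c : ZMod 3, (((sl 3 f v).filter fun x => yy f x l = c) ×ˢ
      ((sl 3 f v).filter fun x => yy f x l = c) |>.filter
        fun z => z.1 ≠ z.2 ∧ yy f z.1 = yy f z.2).card ≤ col (sl 3 f v) (yy f) := by
    intro v
    rw [col, card_eq_sum_card_fiberwise (f := fun z : H × H => yy f z.1 l)
      (t := (univ : Finset (ZMod 3))) fun z _ => by simp]
    refine sum_le_sum fun c _ => card_le_card ?_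
    intro z hz
    rw [mem_filter, mem_product, mem_filter, mem_filter] at hz
    rw [mem_filter, mem_filter, mem_product]
    exact ⟨⟨⟨hz.1.1.1, hz.1.2.1⟩, hz.2⟩, hz.1.1.2⟩
  have h2 : Q.card * 12 ≤ ∑ q ∈ Q, (((sl 3 f q.1).filter fun x => yy f x l = q.2) ×ˢ
      ((sl 3 f q.1).filter fun x => yy f x l = q.2) |>.filter
        fun z => z.1 ≠ z.2 ∧ yy f z.1 = yy f z.2).card := by
    rw [← smul_eq_mul]
    refine card_nsmul_le_sum _ _ _ fun q hq => ?_
    exact six_zero_fib (E.slc q.1 q.1.2) (mem_filter.1 hq).2 hl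
  have h3 : ∑ q ∈ Q, (((sl 3 f q.1).filter fun x => yy f x l = q.2) ×ˢ
      ((sl 3 f q.1).filter fun x => yy f x l = q.2) |>.filter
        fun z => z.1 ≠ z.2 ∧ yy f z.1 = yy f z.2).card ≤
      ∑ q : PP 3 H K × ZMod 3, (((sl 3 f q.1).filter fun x => yy f x l = q.2) ×ˢ
      ((sl 3 f q.1).filter fun x => yy f x l = q.2) |>.filter
        fun z => z.1 ≠ z.2 ∧ yy f z.1 = yy f z.2).card :=
    sum_le_sum_of_subset (subset_univ _)
  rw [Fintype.sum_prod_type] at h3
  have h4 := sum_le_sum fun v (_ : v ∈ (univ : Finset (PP 3 H K))) => h1 v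
  have h5 := Pool.Agent.H88.T6.col_le E
  rw [← sum_coe_sort (PP 3 H K)] at h5
  have h6 := h2.trans (h3.trans (h4.trans h5))
  omega

/-- the quadratic sum -/
theorem sum_fibQ (l : H × K →+ ZMod 3) :
    ∑ v : PP 3 H K, ∑ c, H40.S36.fib (SS (PP 3 H K) (sl 3 f)) (evy (yy f)) v l c ^ 2 =
      ∑ v ∈ PP 3 H K, Q (sl 3 f v) (yy f) l := by
  rw [← sum_coe_sort (PP 3 H K)]
  refine sum_congr rfl fun v _ => ?_
  rw [Pool.Agent.H19.T6.sum3]
  rfl

theorem Sit6.hyp (E : Sit6 f μ)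
    (idx : 729 ≤ (D1 H K).index)
    (many : ∀ l, H40.S36.NZ μ l → 18 ≤ ((univ : Finset (PP 3 H K × ZMod 3)).filter
      (fun q => H40.S36.fib (SS (PP 3 H K) (sl 3 f)) (evy (yy f)) q.1 l q.2 = 6)).card) :
    H40.S36.Hyp (SS (PP 3 H K) (sl 3 f)) (evy (yy f)) μ (D1 H K) where
  exp3 := fun x => by
    ext g
    rw [AddMonoidHom.add_apply, AddMonoidHom.add_apply, AddMonoidHom.zero_apply]
    exact three0 (x g)
  ev_add := fun x y p => evy_add x y p
  add1 := fun a b c d e => mu_add E.slc0 a b c d e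
  s12 := fun a b c d => mu_swap12 E.slc0 a b c d
  s23 := fun a b c d => mu_swap23 E.slc0 a b c d
  s34 := fun a b c d => mu_swap34 E.slc0 a b c d
  cube := fun a d => mu_cube E.slc0 a d
  fib3 := fun v x c => N_dvd (E.slc v v.2) x c
  fibne := fun v x c => (E.slc v v.2).no3 x c
  cell3 := fun v x y c d h => cell3S E.slc v x y c d h
  empt := fun v x c h => empt_field (fqS E.slc) v x c h
  six := fun v x c hx h6 y => six_iff (evy_add (y := yy f)) (fsS E.slc) (fqS E.slc)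
    (cell3S E.slc) (prsS (Pool.Agent.H88.T6.prs E)) many v x c hx h6 y
  rad := rad_field (evy_add (y := yy f)) (fsS E.slc) (fqS E.slc) many
    (fun m hm v => D1_const hm f v) idx
  nz1 := fun x hx => E.row_D1 hx
  six0 := fun x _ hx => E.six0 hx

end Pool.Agent.H16.T6
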