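import Pool.Agent.H16.T6.Sit6

/-!
# T6 RadF: the radical line of a nonzero row

`F` is a fibre with six points of `l` with a nonzero row.  The map `m ↦ (y x0 m - y x5 m, …, y x3 m - y x5 m)` from the functionals (`3 ^ 9` of them, `card_dual` in T35/Cards is the model) to `(ZMod 3) ^ 4`
has a kernel with at least `3 ^ 5 = 243` elements, all of them constant on `F` (the sum over `F` is `0`: `fib_one`; compare `nine_const` in H77/T6/KerA).
`D1` has at most `27` elements (the restriction to `G / G[3]`, `|G / G[3]| = |3 G| = 27`), so there is `m` in the kernel outside of the at most `81` elements of `D1 + {0, l, -l}`.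
-/

set_option autoImplicit false

namespace Pool.Agent.H16.T6

open Finset Pool.Agent.H88.Pl Pool.Agent.H16.RB Pool.Agent.H38.RX Pool.Agent.H38.T35
open scoped Classical

variable {H K : Type*} [AddCommGroup H] [AddCommGroup K] [Fintype H] [Fintype K]

omit [Fintype H] [Fintype K] in
private theorem RadF_lin {V : Type*} [AddCommGroup V] [Finite V] [Module (ZMod 3) V] :
    Nat.card (V →ₗ[ZMod 3] ZMod 3) = Nat.card V := by
  have : Fact (Nat.Prime 3) := ⟨Nat.prime_three⟩
  have : Module.Finite (ZMod 3) V := Module.Finite.of_finite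
  have h1 := Module.natCard_eq_pow_finrank (K := ZMod 3) (V := V)
  have h2 := Module.natCard_eq_pow_finrank (K := ZMod 3) (V := V →ₗ[ZMod 3] ZMod 3)
  have h3 : Module.finrank (ZMod 3) (V →ₗ[ZMod 3] ZMod 3) = Module.finrank (ZMod 3) V :=
    Subspace.dual_finrank_eq
  rw [h2, h3, ← h1]

omit [Fintype H] [Fintype K] in
private theorem RadF_hom (G : Type*) [AddCommGroup G] [Finite G] :
    Nat.card (G →+ ZMod 3) * Nat.card (nsmulAddMonoidHom (α := G) 3).range = Nat.card G := by
  have : Fact (Nat.Prime 3) := ⟨Nat.prime_three⟩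
  let S : AddSubgroup G := (nsmulAddMonoidHom (α := G) 3).range
  have hS : ∀ x : G ⧸ S, 3 • x = 0 := by
    intro x
    induction x using QuotientAddGroup.induction_on with
    | H z =>
      rw [← QuotientAddGroup.mk_nsmul, QuotientAddGroup.eq_zero_iff]
      exact ⟨z, rfl⟩
  let _ : Module (ZMod 3) (G ⧸ S) := AddCommGroup.zmodModule hS
  have h1 : Nat.card (G →+ ZMod 3) = Nat.card ((G ⧸ S) →ₗ[ZMod 3] ZMod 3) := by
    apply Nat.card_congr
    have hl : ∀ l : G →+ ZMod 3, S ≤ l.ker := by
      rintro l _ ⟨z, rfl⟩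
      rw [AddMonoidHom.mem_ker]
      show l (3 • z) = 0
      rw [map_nsmul, nsmul_eq_mul]
      rw [ZMod.natCast_self, zero_mul]
    refine
      { toFun := fun l => (QuotientAddGroup.lift S l (hl l)).toZModLinearMap 3
        invFun := fun m => m.toAddMonoidHom.comp (QuotientAddGroup.mk' S)
        left_inv := ?_
        right_inv := ?_ }
    · intro l
      ext g
      rfl
    · intro m
      ext g
      induction g using QuotientAddGroup.induction_on with
      | H z => rfl
  rw [h1, RadF_lin]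
  have h2 := AddSubgroup.card_mul_index S
  rw [AddSubgroup.index_eq_card] at h2
  rw [mul_comm]
  exact h2

/-- `D1` has index at least `729` -/
theorem Sit6.index_D1 {f : H → K} {μ : (H × K →+ ZMod 3) → (H × K →+ ZMod 3) →
    (H × K →+ ZMod 3) → (H × K →+ ZMod 3) → ZMod 3} (E : Sit6 f μ) : 729 ≤ (D1 H K).index := by
  have h1 := RadF_hom (H × K)
  have h2 : Nat.card (nsmulAddMonoidHom (α := H × K) 3).range = 3 ^ 3 := by
    rw [← E.hP]
    rfl
  have h3 : Nat.card (H × K) = 3 ^ 12 := by
    rw [Nat.card_prod, Nat.card_eq_fintype_card, Nat.card_eq_fintype_card, E.hH, E.hK]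
    norm_num
  rw [h2, h3] at h1
  have h4 : Nat.card (H × K →+ ZMod 3) = 3 ^ 9 := by omega
  have h5 := RadF_hom (nsmulAddMonoidHom (α := H × K) 3).range
  rw [h2] at h5
  have h6 : 0 < Nat.card (nsmulAddMonoidHom
      (α := (nsmulAddMonoidHom (α := H × K) 3).range) 3).range := Nat.card_pos
  have h7 : Nat.card ((nsmulAddMonoidHom (α := H × K) 3).range →+ ZMod 3) ≤ 3 ^ 3 := by
    rw [← h5]
    exact Nat.le_mul_of_pos_right _ h6
  have h8 : Nat.card (D1 H K) =
      Nat.card ((nsmulAddMonoidHom (α := H × K) 3).range →+ ZMod 3) := by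
    have hs := (nsmulAddMonoidHom (α := H × K) 3).rangeRestrict_surjective
    rw [← Nat.card_congr (AddMonoidHom.liftOfSurjective (G₃ := ZMod 3)
      (nsmulAddMonoidHom (α := H × K) 3).rangeRestrict hs)]
    refine Nat.card_congr (Equiv.subtypeEquivRight fun l => ?_)
    rw [mem_D1, AddMonoidHom.ker_rangeRestrict]
    constructor
    · intro h g hg
      rw [AddMonoidHom.mem_ker] at hg ⊢
      exact h g hg
    · intro h g hg
      exact (AddMonoidHom.mem_ker).1 (h ((AddMonoidHom.mem_ker).2 hg))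
  have h9 := AddSubgroup.card_mul_index (D1 H K)
  rw [h4, h8] at h9
  by_contra hlt
  push Not at hlt
  have h10 : Nat.card ((nsmulAddMonoidHom (α := H × K) 3).range →+ ZMod 3) * (D1 H K).index ≤
      3 ^ 3 * 728 := Nat.mul_le_mul h7 (by omega)
  rw [h9] at h10
  norm_num at h10

theorem Sit6.const_six {f : H → K} {μ : (H × K →+ ZMod 3) → (H × K →+ ZMod 3) → (H × K →+ ZMod 3) →
    (H × K →+ ZMod 3) → ZMod 3} (E : Sit6 f μ) {v : H × K} (hv : v ∈ PP 3 H K)
    {l : H × K →+ ZMod 3} {c : ZMod 3} (h6 : N (sl 3 f v) (yy f) l c = 6) :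
    ∃ m : H × K →+ ZMod 3, (∃ d, ∀ x ∈ sl 3 f v, yy f x l = c → yy f x m = d) ∧
      m ∉ D1 H K ∧ m + l ∉ D1 H K ∧ m - l ∉ D1 H K := by
  obtain ⟨F, hF⟩ : ∃ F, F = (sl 3 f v).filter (fun x => yy f x l = c) := ⟨_, rfl⟩
  have hFc : F.card = 6 := by
    rw [hF]
    exact h6
  obtain ⟨e⟩ : Nonempty (Fin 6 ≃ F) := ⟨(Finset.equivFinOfCardEq hFc).symm⟩
  have hmem : ∀ i : Fin 6, (e i : H) ∈ sl 3 f v ∧ yy f (e i) l = c := by
    intro i
    have hmF : ∀ z ∈ F, z ∈ sl 3 f v ∧ yy f z l = c := by
      intro z hz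
      rw [hF, Finset.mem_filter] at hz
      exact hz
    exact hmF _ (e i).2
  have esum : ∀ g : H → ZMod 3, ∑ p ∈ F, g p = ∑ i : Fin 6, g (e i) := by
    intro g
    rw [← Finset.sum_coe_sort F g]
    exact (Equiv.sum_comp e (fun p : F => g p)).symm
  let θ : (H × K →+ ZMod 3) →+ (Fin 4 → ZMod 3) :=
    { toFun := fun m i => yy f (e (Fin.succ (Fin.castSucc i))) m - yy f (e 0) m
      map_zero' := by
        funext i
        simp only [map_zero, sub_self, Pi.zero_apply]
      map_add' := by
        intro m m'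
        funext i
        simp only [map_add, Pi.add_apply]
        ring }
  have hker : ∀ m ∈ θ.ker, ∃ d, ∀ x ∈ sl 3 f v, yy f x l = c → yy f x m = d := by
    intro m hm
    rw [AddMonoidHom.mem_ker] at hm
    have hi : ∀ i : Fin 4, yy f (e (Fin.succ (Fin.castSucc i))) m = yy f (e 0) m := by
      intro i
      exact sub_eq_zero.1 (congrFun hm i)
    have h1 : yy f (e 1) m = yy f (e 0) m := hi 0
    have h2 : yy f (e 2) m = yy f (e 0) m := hi 1
    have h3 : yy f (e 3) m = yy f (e 0) m := hi 2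
    have h4 : yy f (e 4) m = yy f (e 0) m := hi 3
    have hs := fib_one (E.slc v hv) l m c
    rw [← hF, esum, Fin.sum_univ_six, h1, h2, h3, h4] at hs
    have h5 : yy f (e 5) m = yy f (e 0) m := by
      have h6 : (6 : ZMod 3) = 0 := by decide
      linear_combination hs - yy f (e 0) m * h6
    have all : ∀ i : Fin 6, yy f (e i) m = yy f (e 0) m := by
      intro i
      fin_cases i
      · rfl
      · exact h1
      · exact h2
      · exact h3
      · exact h4
      · exact h5
    refine ⟨yy f (e 0) m, fun p hp hpc => ?_⟩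
    have hpF : p ∈ F := by
      rw [hF]
      exact Finset.mem_filter.2 ⟨hp, hpc⟩
    have := all (e.symm ⟨p, hpF⟩)
    rwa [Equiv.apply_symm_apply] at this
  have hle : D1 H K ≤ θ.ker := by
    intro m hm
    rw [AddMonoidHom.mem_ker]
    funext i
    change yy f (e (Fin.succ (Fin.castSucc i))) m - yy f (e 0) m = 0
    rw [yy_apply, yy_apply, ← map_sub]
    apply mem_D1.1 hm
    have a1 := (hmem (Fin.succ (Fin.castSucc i))).1
    have a2 := (hmem 0).1
    rw [sl, Finset.mem_filter] at a1 a2
    rw [smul_sub, a1.2, a2.2, sub_self]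
  have hidx : θ.ker.index ≤ 81 := by
    rw [AddSubgroup.index_ker]
    have h1 : Nat.card θ.range ≤ Nat.card (Fin 4 → ZMod 3) :=
      Nat.card_le_card_of_injective (fun z : θ.range => (z : Fin 4 → ZMod 3))
        Subtype.val_injective
    have h2 : Nat.card (Fin 4 → ZMod 3) = 81 := by
      rw [Nat.card_eq_fintype_card, Fintype.card_fun, ZMod.card, Fintype.card_fin]
      norm_num
    rw [h2] at h1
    exact h1
  have hmul := AddSubgroup.relIndex_mul_index hle
  have hD := E.index_D1
  have hrel : 9 ≤ (D1 H K).relIndex θ.ker := by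
    by_contra hc
    push Not at hc
    have : (D1 H K).relIndex θ.ker * θ.ker.index ≤ 8 * 81 := Nat.mul_le_mul (by omega) hidx
    omega
  have hx : l ∈ θ.ker := by
    rw [AddMonoidHom.mem_ker]
    funext i
    change yy f (e (Fin.succ (Fin.castSucc i))) l - yy f (e 0) l = 0
    rw [(hmem _).2, (hmem _).2, sub_self]
  by_contra hno
  push Not at hno
  have hall : ∀ m ∈ θ.ker, m ∈ D1 H K ∨ m + l ∈ D1 H K ∨ m - l ∈ D1 H K := by
    intro m hm
    by_cases h1 : m ∈ D1 H K
    · exact Or.inl h1
    · by_cases h2 : m + l ∈ D1 H K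
      · exact Or.inr (Or.inl h2)
      · exact Or.inr (Or.inr (hno m (hker m hm) h1 h2))
  let K' := (D1 H K).addSubgroupOf θ.ker
  let X3 : Fin 3 → (θ.ker ⧸ K') := fun i =>
    match i with
    | 0 => 0
    | 1 => -(QuotientAddGroup.mk (⟨l, hx⟩ : θ.ker))
    | 2 => QuotientAddGroup.mk (⟨l, hx⟩ : θ.ker)
  have hsurj : Function.Surjective X3 := by
    intro z
    obtain ⟨m, rfl⟩ := QuotientAddGroup.mk_surjective z
    rcases hall m m.2 with h | h | h
    · refine ⟨0, ?_⟩
      symm
      change (QuotientAddGroup.mk m : θ.ker ⧸ K') = 0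
      rw [QuotientAddGroup.eq_zero_iff]
      exact h
    · refine ⟨1, ?_⟩
      symm
      change (QuotientAddGroup.mk m : θ.ker ⧸ K') = -(QuotientAddGroup.mk (⟨l, hx⟩ : θ.ker))
      rw [← sub_eq_zero, sub_neg_eq_add, ← QuotientAddGroup.mk_add, QuotientAddGroup.eq_zero_iff]
      exact h
    · refine ⟨2, ?_⟩
      symm
      change (QuotientAddGroup.mk m : θ.ker ⧸ K') = QuotientAddGroup.mk (⟨l, hx⟩ : θ.ker)
      rw [← sub_eq_zero, ← QuotientAddGroup.mk_sub, QuotientAddGroup.eq_zero_iff]
      exact h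
  have hcard : Nat.card (θ.ker ⧸ K') ≤ 3 := by
    have := Nat.card_le_card_of_surjective X3 hsurj
    simpa using this
  have : (D1 H K).relIndex θ.ker = Nat.card (θ.ker ⧸ K') := rfl
  omega

end Pool.Agent.H16.T6
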