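import Pool.Agent.H16.T6.Inst
import Pool.Agent.H16.T6.Delta0
import Pool.Agent.H16.T6.RadF
import Pool.Agent.H77.T6.Siz
import Pool.Agent.H40.S36.End

/-!
# T6 module K3: the case `kappa = 3`
-/

set_option autoImplicit false

namespace Pool.Agent.H16.T6

open Finset Pool.Agent.H88.Pl Pool.Agent.H16.RB Pool.Agent.H16.RB2 Pool.Agent.H38.RX
  Pool.Agent.H38.T35 Pool.Agent.H59.T6 Pool.Agent.H88.T6
open scoped Classical

variable {H K : Type*} [AddCommGroup H] [AddCommGroup K] [Fintype H] [Fintype K] {f : H → K}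
  {μ : (H × K →+ ZMod 3) → (H × K →+ ZMod 3) → (H × K →+ ZMod 3) → (H × K →+ ZMod 3) → ZMod 3}

omit [Fintype H] [Fintype K] in
private theorem tor3 (l : H × K →+ ZMod 3) : 3 • l = 0 := by
  ext g
  rw [AddMonoidHom.nsmul_apply, AddMonoidHom.zero_apply, nsmul_eq_mul, ZMod.natCast_self,
    zero_mul]

private theorem card_V (E : Sit6 f μ) : Fintype.card (PP 3 H K) = 27 := by
  rw [Fintype.card_coe]
  exact card_PP E

/-- no row: impossible -/
theorem Sit6.no_row (E : Sit6 f μ) (h0 : ∀ l, ¬ Row μ l) : False := by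
  have hfin : Finite (H × K →+ ZMod 3) :=
    Finite.of_injective (fun l : H × K →+ ZMod 3 => (l : H × K → ZMod 3)) DFunLike.coe_injective
  have hcol : ∀ v ∈ PP 3 H K, col (sl 3 f v) (yy f) ≤ 26 := fun v hv =>
    (single_le_sum (f := fun v => col (sl 3 f v) (yy f)) (fun _ _ => Nat.zero_le _) hv).trans
      (col_le E)
  have h27 : ∀ v ∈ PP 3 H K, 27 ≤ (sl 3 f v).card := by
    intro v hv
    by_contra hlt
    push Not at hlt
    have hv0 := small (E.slc v hv) tor3 h0 hlt (hcol v hv)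
    have h1 := (sx E).sum_sq
    have h2 := sum_card E
    have h3 : ∑ w ∈ PP 3 H K, (((sl 3 f w).card : ℤ) - 27) ^ 2 =
        ∑ w ∈ PP 3 H K, ((sl 3 f w).card : ℤ) ^ 2 - 54 * ∑ w ∈ PP 3 H K, ((sl 3 f w).card : ℤ) +
          729 * 27 := by
      have e : ∀ w ∈ PP 3 H K, (((sl 3 f w).card : ℤ) - 27) ^ 2 =
          ((sl 3 f w).card : ℤ) ^ 2 - 54 * ((sl 3 f w).card : ℤ) + 729 := by
        intro w _
        ring
      rw [sum_congr rfl e, sum_add_distrib, sum_sub_distrib, ← mul_sum, sum_const, card_PP E]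
      norm_num
    have h4 : (729 : ℤ) ≤ ∑ w ∈ PP 3 H K, (((sl 3 f w).card : ℤ) - 27) ^ 2 := by
      refine le_trans ?_ (single_le_sum (f := fun w => (((sl 3 f w).card : ℤ) - 27) ^ 2)
        (fun _ _ => sq_nonneg _) hv)
      show (729 : ℤ) ≤ (((sl 3 f v).card : ℤ) - 27) ^ 2
      rw [hv0]
      norm_num
    have h5 : ((∑ w ∈ PP 3 H K, (sl 3 f w).card : ℕ) : ℤ) = 729 := by rw [h2]; rfl
    have h6 : ((∑ w ∈ PP 3 H K, (sl 3 f w).card ^ 2 + (ZZ K).card : ℕ) : ℤ) = 20412 := by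
      rw [h1]; rfl
    push_cast at h5 h6
    rcases card_K E with ⟨-, h7, -⟩ | ⟨-, h7, -⟩ | ⟨-, h7, -⟩ | ⟨-, h7, -⟩ <;>
    · rw [h7] at h6
      push_cast at h6
      linarith
  obtain ⟨h28, h1⟩ := all27 E h27
  have h2 : 18 ∣ ∑ v ∈ PP 3 H K, col (sl 3 f v) (yy f) :=
    dvd_sum fun v hv => slice27 (E.slc v hv) tor3 h0 (h28 v hv) (hcol v hv)
  rw [col_eq0 E h1] at h2
  omega

/-- some row: impossible (END) -/
theorem Sit6.with_row (E : Sit6 f μ) (idx : 729 ≤ (D1 H K).index)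
    (hsiz : ((TT K).card = 1 ∧ ∀ v ∈ PP 3 H K, (sl 3 f v).card = 27) ∨
      ((TT K).card ≤ 9 ∧ 18 ≤ ((PP 3 H K).filter fun v => (sl 3 f v).card = 24).card))
    {l : H × K →+ ZMod 3} (hl : Row μ l) : False := by
  have fib3 : ∀ (v : PP 3 H K) x c, 3 ∣ H40.S36.fib (SS (PP 3 H K) (sl 3 f)) (evy (yy f)) v x c :=
    fun v x c => N_dvd (E.slc v v.2) x c
  have fibne : ∀ (v : PP 3 H K) x c,
      H40.S36.fib (SS (PP 3 H K) (sl 3 f)) (evy (yy f)) v x c ≠ 3 :=
    fun v x c => (E.slc v v.2).no3 x c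
  have empt := empt_field (fqS E.slc)
  rcases hsiz with ⟨h1, h27⟩ | ⟨h1, h24⟩
  · have hsq : ∀ x, x ∉ D1 H K → ∑ v, ∑ c,
        H40.S36.fib (SS (PP 3 H K) (sl 3 f)) (evy (yy f)) v x c ^ 2 = 7047 := by
      intro x hx
      rw [sum_fibQ]
      exact Q_eq0 E h1 hx
    have hc : ∀ v : PP 3 H K, (SS (PP 3 H K) (sl 3 f) v).card = 27 := fun v => h27 v v.2
    have many := Pool.Agent.H19.T6.many0 (card_V E) hc fib3 fibne empt
      (fun x hx => E.row_D1 hx) hsq
    exact H40.S36.end0 (E.hyp idx many) (card_V E) hc hsq l hl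
  · have hsq : ∀ x, x ∉ D1 H K → ∑ v, ∑ c,
        H40.S36.fib (SS (PP 3 H K) (sl 3 f)) (evy (yy f)) v x c ^ 2 ≤ 7263 := by
      intro x hx
      rw [sum_fibQ]
      exact Q_le E h1 hx
    have h24' : 18 ≤ ((univ : Finset (PP 3 H K)).filter
        (fun v => (SS (PP 3 H K) (sl 3 f) v).card = 24)).card := by
      refine h24.trans (le_of_eq ?_)
      refine (card_bij (fun v hv => (⟨v, (mem_filter.1 hv).1⟩ : PP 3 H K)) ?_ ?_ ?_)
      · intro v hv
        rw [mem_filter] at hv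
        exact mem_filter.2 ⟨mem_univ _, hv.2⟩
      · intro v hv w hw h
        exact congrArg Subtype.val h
      · rintro ⟨v, hv⟩ h
        rw [mem_filter] at h
        exact ⟨v, mem_filter.2 ⟨hv, h.2⟩, rfl⟩
    have hS : ∑ v : PP 3 H K, (SS (PP 3 H K) (sl 3 f) v).card = 729 := by
      rw [← sum_card E, ← sum_coe_sort (PP 3 H K)]
      rfl
    have many := Pool.Agent.H19.T6.many12 h24' fib3 fibne empt
    exact H40.S36.end12 (E.hyp idx many) (card_V E) hS h24' hsq l hl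

/-- the case `kappa = 3` -/
theorem k3_false {f : H → K} (hH : Fintype.card H = 3 ^ 6) (hK : Fintype.card K = 3 ^ 6)
    (hf : IsPlanar f) (h9 : ∀ g : H × K, 9 • g = 0)
    (hP : Nat.card (Set.range fun g : H × K => 3 • g) = 3 ^ 3) : False := by
  obtain ⟨μ, E⟩ := mk6 hH hK f hf h9 hP
  by_cases hr : ∃ l, Row μ l
  · have h24 := ge24' E hr
    obtain ⟨l, hl⟩ := hr
    refine E.with_row E.index_D1 ?_ hl
    rcases Pool.Agent.H77.T6.siz E h24 with h | ⟨h1, h2⟩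
    · exact Or.inl h
    · refine Or.inr ⟨?_, h2⟩
      rcases h1 with h1 | h1 <;> omega
  · push Not at hr
    exact E.no_row hr

end Pool.Agent.H16.T6
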