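import Mathlib

/-!
# T6 module Nine: `|3 ^ (e - 1) G| ≥ 27` and `|3 G| ≤ 81` give `9 G = 0`
-/

set_option autoImplicit false

namespace Pool.Agent.H16.T6

open scoped Classical

/-- multiplication by `3` on the subgroup `n G` -/
private theorem card_step {G : Type*} [AddCommGroup G] [Finite G] (n : ℕ)
    (h3 : ∀ g : G, (3 * (3 * n)) • g = 0) :
    Nat.card (Set.range fun g : G => (3 * n) • g) * Nat.card (Set.range fun g : G => (3 * n) • g) ≤
      Nat.card (Set.range fun g : G => n • g) := by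
  let A : AddSubgroup G := (nsmulAddMonoidHom (α := G) n).range
  let B : AddSubgroup G := (nsmulAddMonoidHom (α := G) (3 * n)).range
  let φ : A →+ A := nsmulAddMonoidHom 3
  have h1 : Nat.card φ.ker * φ.ker.index = Nat.card A := AddSubgroup.card_mul_index _
  have hBA : ∀ b ∈ B, b ∈ A := by
    rintro _ ⟨g, rfl⟩
    refine ⟨3 • g, ?_⟩
    show n • (3 • g) = (3 * n) • g
    rw [smul_smul, mul_comm]
  have h2 : Nat.card B ≤ Nat.card φ.ker := by
    refine Nat.card_le_card_of_injective (fun b : B => (⟨⟨b, hBA b b.2⟩, ?_⟩ : φ.ker)) ?_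
    · rw [AddMonoidHom.mem_ker]
      apply Subtype.ext
      show 3 • (b : G) = 0
      obtain ⟨g, hg⟩ := b.2
      rw [← hg]
      show 3 • ((3 * n) • g) = 0
      rw [smul_smul]
      exact h3 g
    · intro b b' h
      have h' := congrArg (fun z : φ.ker => ((z : A) : G)) h
      exact Subtype.ext h'
  have h4 : Nat.card B ≤ φ.ker.index := by
    rw [AddSubgroup.index_ker]
    refine Nat.card_le_card_of_injective (fun b : B => (⟨⟨b, hBA b b.2⟩, ?_⟩ : φ.range)) ?_
    · obtain ⟨g, hg⟩ := b.2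
      refine ⟨⟨n • g, g, rfl⟩, ?_⟩
      apply Subtype.ext
      show 3 • (n • g) = (b : G)
      rw [← hg, smul_smul]
      rfl
    · intro b b' h
      have h' := congrArg (fun z : φ.range => ((z : A) : G)) h
      exact Subtype.ext h'
  have h5 : Nat.card B * Nat.card B ≤ Nat.card A := by
    rw [← h1]
    exact Nat.mul_le_mul h2 h4
  exact h5

theorem nine_zero {G : Type*} [AddCommGroup G] [Finite G] {e : ℕ} (he : 2 ≤ e)
    (hexp : AddMonoid.exponent G = 3 ^ e)
    (hB : 3 ^ 3 ≤ Nat.card (Set.range fun g : G => 3 ^ (e - 1) • g))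
    (hκ : Nat.card (Set.range fun g : G => 3 • g) ≤ 3 ^ 4) (g : G) : 9 • g = 0 := by
  by_cases he3 : 3 ≤ e
  · exfalso
    obtain ⟨k, rfl⟩ : ∃ k, e = k + 3 := ⟨e - 3, by omega⟩
    have h1 := card_step (G := G) (3 ^ (k + 1)) (by
      intro g
      have h2 : 3 * (3 * 3 ^ (k + 1)) = 3 ^ (k + 3) := by ring
      rw [h2, ← hexp]
      exact AddMonoid.exponent_nsmul_eq_zero g)
    have h2 : 3 * 3 ^ (k + 1) = 3 ^ (k + 3 - 1) := by
      rw [show k + 3 - 1 = k + 1 + 1 by omega, pow_succ 3 (k + 1), mul_comm]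
    rw [h2] at h1
    have h3 : Nat.card (Set.range fun g : G => 3 ^ (k + 1) • g) ≤
        Nat.card (Set.range fun g : G => 3 • g) := by
      refine Nat.card_mono (Set.toFinite _) ?_
      rintro _ ⟨g, rfl⟩
      refine ⟨3 ^ k • g, ?_⟩
      show 3 • (3 ^ k • g) = 3 ^ (k + 1) • g
      rw [smul_smul, pow_succ, mul_comm]
    have h4 := Nat.mul_le_mul hB hB
    have h5 := (h4.trans h1).trans (h3.trans hκ)
    norm_num at h5
  · have he2 : e = 2 := by omega
    subst he2
    have h1 := AddMonoid.exponent_nsmul_eq_zero (G := G) g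
    rw [hexp] at h1
    simpa using h1

end Pool.Agent.H16.T6
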