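import Pool.Agent.H16.T6.K3
import Pool.Agent.H16.T6.Nine
import Pool.Agent.H38.K4.Main
import Pool.Agent.H88.T56.Main

/-!
# T6 Main6: Q1 for order 729 and the orders `p ^ r`, `r ≤ 6`
-/

set_option autoImplicit false

namespace Pool.Agent.H16.T6

open Finset Pool.Agent.H16.RB Pool.Agent.H88.Pl Pool.Agent.H16.RB2 Pool.Agent.H38.RX
open scoped Classical

variable {H K : Type*} [AddCommGroup H] [AddCommGroup K]

/-- Q1 for order 729 -/
theorem q1_729 (hH : Nat.card H = 3 ^ 6) (hK : Nat.card K = 3 ^ 6) (f : H → K)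
    (hf : IsPlanar f) (g : H × K) : 3 • g = 0 := by
  have hp3 : Fact (Nat.Prime 3) := ⟨Nat.prime_three⟩
  have : Finite H := Nat.finite_of_card_ne_zero (by rw [hH]; norm_num)
  have : Finite K := Nat.finite_of_card_ne_zero (by rw [hK]; norm_num)
  have := Fintype.ofFinite H
  have := Fintype.ofFinite K
  by_contra hg
  have hG : Nat.card (H × K) = 3 ^ (2 * 6) := by
    rw [Nat.card_prod, hH, hK, ← pow_add]
  obtain ⟨e, -, he⟩ := (Nat.dvd_prime_pow Nat.prime_three).1
    (show AddMonoid.exponent (H × K) ∣ 3 ^ (2 * 6) by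
      rw [← hG]; exact AddGroup.exponent_dvd_nat_card)
  have he2 : 2 ≤ e := by
    by_contra hlt
    apply hg
    have h1 : AddMonoid.exponent (H × K) ∣ 3 := by
      rw [he]
      calc 3 ^ e ∣ 3 ^ 1 := pow_dvd_pow 3 (by omega)
        _ = 3 := pow_one 3
    obtain ⟨c, hc⟩ := h1
    rw [hc, mul_comm, mul_smul, AddMonoid.exponent_nsmul_eq_zero, smul_zero]
  obtain ⟨κ, hκ⟩ := card_range_pow hG
  have hB := Pool.Agent.H38.PL3.main_C (show 3 ≤ 6 by omega) he2 hH hK f hf he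
  have hsub : (Set.range fun g : H × K => 3 ^ (e - 1) • g) ⊆ Set.range fun g : H × K => 3 • g := by
    rintro _ ⟨x, rfl⟩
    refine ⟨3 ^ (e - 2) • x, ?_⟩
    show 3 • (3 ^ (e - 2) • x) = 3 ^ (e - 1) • x
    rw [smul_smul, ← pow_succ']
    congr 2
    omega
  have hle := Nat.card_mono (Set.toFinite _) hsub
  have hκ3 : 3 ≤ κ := by
    rw [hκ] at hle
    exact (Nat.pow_le_pow_iff_right (by norm_num)).1 (hB.trans hle)
  have hrb := rank_C (by norm_num : (3 : ℕ) ≠ 2) hH hK f hf (by omega) hκ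
  have hκ4 : κ = 3 ∨ κ = 4 := by omega
  rcases hκ4 with rfl | rfl
  · have h9 : ∀ g : H × K, 9 • g = 0 := nine_zero he2 he hB (by rw [hκ]; norm_num)
    exact k3_false (by rw [← Nat.card_eq_fintype_card, hH])
      (by rw [← Nat.card_eq_fintype_card, hK]) hf h9 hκ
  · exact Pool.Agent.H38.K4.no_four hH hK f hf hκ

/-- the orders `p ^ r`, `3 ≤ r ≤ 6` -/
theorem small_orders6 {p r : ℕ} [Fact p.Prime] (h3 : 3 ≤ r) (h6 : r ≤ 6)
    (hH : Nat.card H = p ^ r) (hK : Nat.card K = p ^ r) (f : H → K) (hf : IsPlanar f) :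
    Nonempty (H ≃+ (Fin r → ZMod p)) ∧ Nonempty (K ≃+ (Fin r → ZMod p)) := by
  have hpp : p.Prime := Fact.out
  by_cases h : (3 ≤ r ∧ r ≤ 5) ∨ (5 ≤ p ∧ r = 6)
  · exact Pool.Agent.H88.T56.small_orders4 (by omega) hH hK f hf
  · have hr : r = 6 := by omega
    subst hr
    have hp5 : p < 5 := by omega
    have hp4 : p ≠ 4 := by rintro rfl; exact absurd hpp (by norm_num)
    have h2 := hpp.two_le
    rcases (show p = 2 ∨ p = 3 by omega) with rfl | rfl
    · exact (Pool.Agent.H38.PL3.no_two (by norm_num) hH hf).elim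
    · have h1 : ∀ g : H × K, 3 • g = 0 := fun g => q1_729 hH hK f hf g
      constructor
      · exact equiv_of_smul hH fun x => (Prod.ext_iff.1 (h1 (x, 0))).1
      · exact equiv_of_smul hK fun y => (Prod.ext_iff.1 (h1 (0, y))).2

end Pool.Agent.H16.T6
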