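import Pool.Agent.H16.T6.Quart

/-!
# T6 module Mk6: every planar function with `|H| = |K| = 3 ^ 6`, `9 G = 0`, `|3 G| = 27` is in the situation `Sit6`
-/

set_option autoImplicit false

namespace Pool.Agent.H16.T6

open Finset Pool.Agent.H88.Pl Pool.Agent.H16.RB Pool.Agent.H16.RB2 Pool.Agent.H38.RX
  Pool.Agent.H38.T35
open scoped Classical

variable {H K : Type*} [AddCommGroup H] [AddCommGroup K] [Fintype H] [Fintype K]

theorem zero_mem_PP : (0 : H × K) ∈ PP 3 H K :=
  mem_filter.2 ⟨mem_univ _, 0, smul_zero _⟩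

theorem mk6 (hH : Fintype.card H = 3 ^ 6) (hK : Fintype.card K = 3 ^ 6) (f : H → K)
    (hf : IsPlanar f) (h9 : ∀ g : H × K, 9 • g = 0)
    (hP : Nat.card (Set.range fun g : H × K => 3 • g) = 3 ^ 3) : ∃ μ, Sit6 f μ := by
  refine ⟨fun a b c d => ∑ x ∈ sl 3 f 0, yy f x a * yy f x b * yy f x c * yy f x d,
    hH, hK, hf, h9, hP, fun v hv => ⟨?_, ?_, ?_⟩⟩
  · intro Ls hLs
    have : Fact (Nat.Prime 3) := ⟨Nat.prime_three⟩
    obtain ⟨g, hg⟩ := (mem_filter.1 hv).2
    have hg' : 3 • g = v := hg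
    rw [← hg']
    exact sl_kills2 (n := 4) (by norm_num) hH hK f hf hP (by norm_num) g Ls (by omega)
  · intro a b c d
    have h := quart_const hH f hf h9 hP hv zero_mem_PP [(a, 0), (b, 0), (c, 0), (d, 0)] (by simp)
    simp only [List.map_cons, List.map_nil, List.prod_cons, List.prod_nil, mul_one,
      sub_zero] at h
    refine Eq.trans (sum_congr rfl fun x _ => ?_) (h.trans (sum_congr rfl fun x _ => ?_))
    · simp only [yy_apply]
      ring
    · simp only [yy_apply]
      ring
  · intro l c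
    exact no_three hH hK f hf h9 hP hv l c

end Pool.Agent.H16.T6
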