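import Pool.Agent.H16.T6.Loc
import Pool.Agent.H38.T35.Cards

/-!
# T6 Sit6: the situation `|H| = |K| = 3 ^ 6`, `9 G = 0`, `|3 G| = 27` for a planar function

The functionals are all homomorphisms `G →+ ZMod 3` (there are `3 ^ 9` of them), `yy f x` is the evaluation at the point `gr f x = (x, f x)` of the graph, `D1` are the functionals which vanish on the
elements killed by `3` (they are constant on every slice `sl 3 f v`, `v ∈ PP 3 H K`; there are `27` of them).
-/

set_option autoImplicit false

namespace Pool.Agent.H16.T6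

open Finset Pool.Agent.H88.Pl Pool.Agent.H16.RB Pool.Agent.H38.RX Pool.Agent.H38.T35
open scoped Classical

variable {H K : Type*} [AddCommGroup H] [AddCommGroup K]

/-- evaluation at the point `(x, f x)` of the graph -/
noncomputable def yy (f : H → K) (x : H) : (H × K →+ ZMod 3) →+ ZMod 3 :=
  AddMonoidHom.eval (gr f x)

theorem yy_apply (f : H → K) (x : H) (l : H × K →+ ZMod 3) : yy f x l = l (gr f x) := rfl

/-- the functionals which vanish on the elements killed by `3` -/
def D1 (H K : Type*) [AddCommGroup H] [AddCommGroup K] : AddSubgroup (H × K →+ ZMod 3) where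
  carrier := {l | ∀ g : H × K, 3 • g = 0 → l g = 0}
  zero_mem' := fun _ _ => rfl
  add_mem' := by
    intro a b ha hb g hg
    rw [AddMonoidHom.add_apply, ha g hg, hb g hg, add_zero]
  neg_mem' := by
    intro a ha g hg
    rw [AddMonoidHom.neg_apply, ha g hg, neg_zero]

theorem mem_D1 {l : H × K →+ ZMod 3} : l ∈ D1 H K ↔ ∀ g : H × K, 3 • g = 0 → l g = 0 := Iff.rfl

variable [Fintype H] [Fintype K]

/-- the situation: order `3 ^ 6`, `kappa = 3`; `μ` is the common quartic form of the slices -/
structure Sit6 (f : H → K) (μ : (H × K →+ ZMod 3) → (H × K →+ ZMod 3) → (H × K →+ ZMod 3) →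
    (H × K →+ ZMod 3) → ZMod 3) : Prop where
  hH : Fintype.card H = 3 ^ 6
  hK : Fintype.card K = 3 ^ 6
  hf : IsPlanar f
  h9 : ∀ g : H × K, 9 • g = 0
  hP : Nat.card (Set.range fun g : H × K => 3 • g) = 3 ^ 3
  slc : ∀ v ∈ PP 3 H K, Slc μ (sl 3 f v) (yy f)

end Pool.Agent.H16.T6
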