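import Pool.Agent.H38.K4.Lin
import Pool.Agent.H16.T6.Top6

/-!
# T6 module Quart: the sums over the slices of products of four functionals are all the same

Three homomorphisms `a, b, c : G →+ ZMod 9` which separate the elements of `3 G`; the slices are the sets of the points with given first digits of `a, b, c`.  `lin_key` (K4/Lin) with the product
`(a - α) (1 - (b - β) ^ 2) (1 - (c - γ) ^ 2)` of first digits (cost at most `5`) and four functionals (cost `12`): `5 + 12 < 18`, so the sums over `a = α + 1` and `a = α - 1` agree.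
-/

set_option autoImplicit false

namespace Pool.Agent.H16.T6

open Finset Pool.Agent.H88.Pl Pool.Agent.H16.RB Pool.Agent.H16.RB2 Pool.Agent.H38.RX
  Pool.Agent.H38.T35
open scoped Classical

variable {H K : Type*} [AddCommGroup H] [AddCommGroup K] [Fintype H] [Fintype K]

/-- the first digit -/
private noncomputable def dg (f : H → K) (a : H × K →+ ZMod (3 ^ 2)) (x : H) : ZMod 3 :=
  ((a (gr f x)).val : ZMod 3)

private noncomputable def MM (f : H → K) (P : H → ZMod 3) (a b c : H × K →+ ZMod (3 ^ 2))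
    (α β γ : ZMod 3) : ZMod 3 :=
  ∑ x, if dg f a x = α ∧ dg f b x = β ∧ dg f c x = γ then P x else 0

omit [Fintype K] in
private theorem MM_swap (f : H → K) (P : H → ZMod 3) (a b c : H × K →+ ZMod (3 ^ 2))
    (α β γ : ZMod 3) : MM f P a b c α β γ = MM f P b a c β α γ := by
  unfold MM
  refine sum_congr rfl fun x _ => ?_
  have : (dg f a x = α ∧ dg f b x = β ∧ dg f c x = γ) ↔
      (dg f b x = β ∧ dg f a x = α ∧ dg f c x = γ) := by tauto
  simp only [this]

omit [Fintype K] in
private theorem MM_swap' (f : H → K) (P : H → ZMod 3) (a b c : H × K →+ ZMod (3 ^ 2))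
    (α β γ : ZMod 3) : MM f P a b c α β γ = MM f P c b a γ β α := by
  unfold MM
  refine sum_congr rfl fun x _ => ?_
  have : (dg f a x = α ∧ dg f b x = β ∧ dg f c x = γ) ↔
      (dg f c x = γ ∧ dg f b x = β ∧ dg f a x = α) := by tauto
  simp only [this]

private theorem Quart_e : ∀ u v w α β γ P : ZMod 3,
    ((if u = α + 1 ∧ v = β ∧ w = γ then P else 0) - (if u = α + 2 ∧ v = β ∧ w = γ then P else 0)) =
    (u - α) * P - (u - α) * ((v - β) * (v - β)) * P - (u - α) * ((w - γ) * (w - γ)) * P +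
      (u - α) * ((v - β) * ((v - β) * ((w - γ) * (w - γ)))) * P := by
  intro u v w α β γ P
  obtain ⟨u', hu'⟩ : ∃ u', u' = u - α := ⟨_, rfl⟩
  obtain ⟨v', hv'⟩ : ∃ v', v' = v - β := ⟨_, rfl⟩
  obtain ⟨w', hw'⟩ : ∃ w', w' = w - γ := ⟨_, rfl⟩
  have h1 : (u = α + 1) ↔ u' = 1 := by
    rw [hu', sub_eq_iff_eq_add, add_comm]
  have h2 : (u = α + 2) ↔ u' = 2 := by
    rw [hu', sub_eq_iff_eq_add, add_comm]
  have h3 : (v = β) ↔ v' = 0 := by rw [hv', sub_eq_zero]
  have h4 : (w = γ) ↔ w' = 0 := by rw [hw', sub_eq_zero]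
  simp only [h1, h2, h3, h4, ← hu', ← hv', ← hw']
  clear hu' hv' hw' h1 h2 h3 h4
  have sq : ∀ z : ZMod 3, z ≠ 0 → z * z = 1 := by decide
  by_cases hv : v' = 0
  · by_cases hw : w' = 0
    · have h3 : ∀ z : ZMod 3, z = 0 ∨ z = 1 ∨ z = 2 := by decide
      rw [hv, hw]
      rcases h3 u' with rfl | rfl | rfl
      · rw [if_neg (by decide), if_neg (by decide)]
        ring
      · rw [if_pos (by decide), if_neg (by decide)]
        ring
      · rw [if_neg (by decide), if_pos (by decide)]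
        have h30 : (3 : ZMod 3) = 0 := rfl
        linear_combination (-P) * h30
    · have h5 := sq w' hw
      rw [if_neg (fun h => hw h.2.2), if_neg (fun h => hw h.2.2), h5, hv]
      ring
  · have h5 := sq v' hv
    have h6 : v' * (v' * (w' * w')) = w' * w' := by
      rw [← mul_assoc, h5, one_mul]
    rw [if_neg (fun h => hv h.2.1), if_neg (fun h => hv h.2.1), h6, h5]
    ring

private theorem MM_zero (hH : Fintype.card H = 3 ^ 6) (f : H → K) (hf : IsPlanar f)
    (Ls : List ((H × K →+ ZMod 3) × ZMod 3)) (hLs : Ls.length ≤ 4)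
    (a b c : H × K →+ ZMod (3 ^ 2)) (α β γ : ZMod 3) :
    MM f (fun x => (Ls.map fun l => l.1 (gr f x) - l.2).prod) a b c (α + 1) β γ =
      MM f (fun x => (Ls.map fun l => l.1 (gr f x) - l.2).prod) a b c (α + 2) β γ := by
  have : Fact (Nat.Prime 3) := ⟨Nat.prime_three⟩
  have key : ∀ As : List ((H × K →+ ZMod (3 ^ 2)) × ℕ), As.length ≤ 5 →
      ∑ x, (As.map fun a => ((a.1 (gr f x)).val : ZMod 3) - (a.2 : ZMod 3)).prod *
        (Ls.map fun l => l.1 (gr f x) - l.2).prod = 0 := by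
    intro As hAs
    exact Pool.Agent.H38.K4.lin_key (p := 3) (r := 6) (by norm_num) hH f hf As Ls (by omega)
  have k1 := key [(a, α.val)] (by simp)
  have k2 := key [(a, α.val), (b, β.val), (b, β.val)] (by simp)
  have k3 := key [(a, α.val), (c, γ.val), (c, γ.val)] (by simp)
  have k4 := key [(a, α.val), (b, β.val), (b, β.val), (c, γ.val), (c, γ.val)] (by simp)
  simp only [List.map_cons, List.map_nil, List.prod_cons, List.prod_nil, mul_one,
    ZMod.natCast_zmod_val] at k1 k2 k3 k4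
  rw [← sub_eq_zero]
  unfold MM
  rw [← sum_sub_distrib]
  have e' : ∀ x : H, (if dg f a x = α + 1 ∧ dg f b x = β ∧ dg f c x = γ then
      (Ls.map fun l => l.1 (gr f x) - l.2).prod else 0) -
      (if dg f a x = α + 2 ∧ dg f b x = β ∧ dg f c x = γ then
      (Ls.map fun l => l.1 (gr f x) - l.2).prod else 0) =
      (dg f a x - α) * (Ls.map fun l => l.1 (gr f x) - l.2).prod -
      (dg f a x - α) * ((dg f b x - β) * (dg f b x - β)) *
        (Ls.map fun l => l.1 (gr f x) - l.2).prod -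
      (dg f a x - α) * ((dg f c x - γ) * (dg f c x - γ)) *
        (Ls.map fun l => l.1 (gr f x) - l.2).prod +
      (dg f a x - α) * ((dg f b x - β) * ((dg f b x - β) * ((dg f c x - γ) * (dg f c x - γ)))) *
        (Ls.map fun l => l.1 (gr f x) - l.2).prod := by
    intro x
    exact Quart_e _ _ _ _ _ _ _
  rw [sum_congr rfl fun x _ => e' x, sum_add_distrib, sum_sub_distrib, sum_sub_distrib]
  unfold dg
  rw [k1, k2, k3, k4]
  ring

private theorem MM_step (hH : Fintype.card H = 3 ^ 6) (f : H → K) (hf : IsPlanar f)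
    (Ls : List ((H × K →+ ZMod 3) × ZMod 3)) (hLs : Ls.length ≤ 4)
    (a b c : H × K →+ ZMod (3 ^ 2)) (α α' β γ : ZMod 3) :
    MM f (fun x => (Ls.map fun l => l.1 (gr f x) - l.2).prod) a b c α β γ =
      MM f (fun x => (Ls.map fun l => l.1 (gr f x) - l.2).prod) a b c α' β γ := by
  have h0 := MM_zero hH f hf Ls hLs a b c 0 β γ
  have h1 := MM_zero hH f hf Ls hLs a b c 1 β γ
  have e1 : (0 : ZMod 3) + 1 = 1 := rfl
  have e2 : (0 : ZMod 3) + 2 = 2 := rfl
  have e3 : (1 : ZMod 3) + 1 = 2 := rfl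
  have e4 : (1 : ZMod 3) + 2 = 0 := rfl
  rw [e1, e2] at h0
  rw [e3, e4] at h1
  have h2 : ∀ α, MM f (fun x => (Ls.map fun l => l.1 (gr f x) - l.2).prod) a b c α β γ =
      MM f (fun x => (Ls.map fun l => l.1 (gr f x) - l.2).prod) a b c 0 β γ := by
    intro α
    have h3 : ∀ z : ZMod 3, z = 0 ∨ z = 1 ∨ z = 2 := by decide
    rcases h3 α with rfl | rfl | rfl
    · rfl
    · rw [h0, h1]
    · exact h1
  rw [h2 α, h2 α']

private theorem MM_all (hH : Fintype.card H = 3 ^ 6) (f : H → K) (hf : IsPlanar f)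
    (Ls : List ((H × K →+ ZMod 3) × ZMod 3)) (hLs : Ls.length ≤ 4)
    (a b c : H × K →+ ZMod (3 ^ 2)) (α α' β β' γ γ' : ZMod 3) :
    MM f (fun x => (Ls.map fun l => l.1 (gr f x) - l.2).prod) a b c α β γ =
      MM f (fun x => (Ls.map fun l => l.1 (gr f x) - l.2).prod) a b c α' β' γ' := by
  rw [MM_step hH f hf Ls hLs a b c α α' β γ, MM_swap, MM_step hH f hf Ls hLs b a c β β' α' γ,
    MM_swap, MM_swap', MM_step hH f hf Ls hLs c b a γ γ' β' α', MM_swap']

/-- the sums over the slices of products of at most four functionals do not depend on the slice -/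
theorem quart_const (hH : Fintype.card H = 3 ^ 6) (f : H → K)
    (hf : IsPlanar f) (h9 : ∀ g : H × K, 9 • g = 0)
    (hP : Nat.card (Set.range fun g : H × K => 3 • g) = 3 ^ 3) {v w : H × K}
    (hv : v ∈ PP 3 H K) (hw : w ∈ PP 3 H K)
    (Ls : List ((H × K →+ ZMod 3) × ZMod 3)) (hLs : Ls.length ≤ 4) :
    ∑ x ∈ sl 3 f v, (Ls.map fun l => l.1 (gr f x) - l.2).prod =
      ∑ x ∈ sl 3 f w, (Ls.map fun l => l.1 (gr f x) - l.2).prod := by
  -- three homomorphisms
  obtain ⟨g, hg⟩ : ∃ g : H × K, 3 • g ≠ 0 := by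
    by_contra hc
    push Not at hc
    have h1 : (Set.range fun g : H × K => 3 • g) ⊆ {0} := by
      rintro _ ⟨g, rfl⟩
      exact hc g
    have h2 := Nat.card_mono (Set.finite_singleton _) h1
    rw [hP, Nat.card_unique] at h2
    norm_num at h2
  obtain ⟨a, ha⟩ := sep9 h9 _ hg
  obtain ⟨b, c, hbc⟩ := three_homs h9 hP a ⟨g, ha⟩
  have hmod : ∀ u v : ZMod (3 ^ 2), ((u.val : ZMod 3) = (v.val : ZMod 3)) ↔ 3 • (u - v) = 0 := by
    decide
  have hmem : ∀ (d : H × K →+ ZMod 9) (g0 : H × K) (x : H),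
      dg f d x = ((d g0).val : ZMod 3) ↔ d (3 • (gr f x - g0)) = 0 := by
    intro d g0 x
    unfold dg
    rw [map_nsmul, map_sub]
    exact hmod _ _
  have hsl : ∀ {v : H × K}, v ∈ PP 3 H K → ∃ α β γ : ZMod 3,
      ∑ x ∈ sl 3 f v, (Ls.map fun l => l.1 (gr f x) - l.2).prod =
      MM f (fun x => (Ls.map fun l => l.1 (gr f x) - l.2).prod) a b c α β γ := by
    intro v hv
    obtain ⟨g0, hg0⟩ := (mem_filter.1 hv).2
    refine ⟨((a g0).val : ZMod 3), ((b g0).val : ZMod 3), ((c g0).val : ZMod 3), ?_⟩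
    unfold MM sl
    rw [sum_filter]
    refine sum_congr rfl fun x _ => ?_
    have h1 : 3 • gr f x = v ↔ (dg f a x = ((a g0).val : ZMod 3) ∧
        dg f b x = ((b g0).val : ZMod 3) ∧ dg f c x = ((c g0).val : ZMod 3)) := by
      rw [hmem a, hmem b, hmem c, ← hg0]
      constructor
      · intro h
        have h' : 3 • (gr f x - g0) = 0 := by
          rw [smul_sub, sub_eq_zero]
          exact h
        rw [h', map_zero, map_zero, map_zero]
        exact ⟨rfl, rfl, rfl⟩
      · rintro ⟨h1, h2, h3⟩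
        have h' := hbc _ h1 h2 h3
        rw [smul_sub, sub_eq_zero] at h'
        exact h'
    simp only [h1]
  obtain ⟨α, β, γ, h1⟩ := hsl hv
  obtain ⟨α', β', γ', h2⟩ := hsl hw
  rw [h1, h2]
  exact MM_all hH f hf Ls hLs a b c _ _ _ _ _ _

end Pool.Agent.H16.T6
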